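import Pool.Agent.R678.MC.H

/-!
MP_d0f95c_al, Q1 (positive answer): if `Mcd_G(N) = {1, f}` with `f` a power of a prime, then
`[N, G]` is abelian. By the problem file this is the only unsettled case of Q1.
-/

open scoped Classical

noncomputable section

namespace Pool.Agent.Results.MP_d0f95c_al.CommutatorAbelian

/-- `χ` is an irreducible complex character of `H`. -/
def IsIrr {H : Type} [Group H] (χ : H → ℂ) : Prop :=
  ∃ (V : Type) (_ : AddCommGroup V) (_ : Module ℂ V) (_ : FiniteDimensional ℂ V)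
    (ρ : Representation ℂ H V), ρ.IsIrreducible ∧ χ = ρ.character

/-- the conjugate `θ^g` of a function on a normal subgroup: `θ^g (n) = θ (g n g⁻¹)` -/
def conjFun {G : Type} [Group G] (N : Subgroup G) [hN : N.Normal] (θ : N → ℂ) (g : G) : N → ℂ :=
  fun n => θ ⟨g * n * g⁻¹, hN.conj_mem n n.2 g⟩

/-- the inertia group `I_G(θ) = {g : θ^g = θ}` -/
def inertia {G : Type} [Group G] (N : Subgroup G) [hN : N.Normal] (θ : N → ℂ) : Subgroup G where
  carrier := {g | conjFun N θ g = θ}
  mul_mem' := by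
    intro a b ha hb
    funext n
    have h1 := congrFun ha ⟨b * n * b⁻¹, hN.conj_mem n n.2 b⟩
    have h2 := congrFun hb n
    unfold conjFun at h1 h2 ⊢
    rw [← h2, ← h1]
    congr 1
    ext
    simp [mul_assoc]
  one_mem' := by
    funext n
    unfold conjFun
    congr 1
    ext
    simp
  inv_mem' := by
    intro a ha
    funext n
    have h1 := congrFun ha ⟨a⁻¹ * n * a⁻¹⁻¹, hN.conj_mem n n.2 a⁻¹⟩
    unfold conjFun at h1 ⊢
    rw [← h1]
    congr 1
    ext
    simp [mul_assoc]

/-- `Mcd_G(N)`: the degrees `|G : I_G(θ)| θ(1)` of the minimal `G`-invariant characters of `N`,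
where `θ` runs over the irreducible characters of `N`. -/
def Mcd (G : Type) [Group G] (N : Subgroup G) [N.Normal] : Set ℕ :=
  {d | ∃ θ : N → ℂ, IsIrr θ ∧ (d : ℂ) = ((inertia N θ).index : ℂ) * θ 1}

/-- If `G` is a finite group, `N` a normal subgroup and `Mcd_G(N) = {1, p ^ a}` with `p` prime,
then `[N, G]` is abelian. -/
theorem result : ∀ (G : Type) [Group G] [Finite G] (N : Subgroup G) [N.Normal] (p a : ℕ),
    p.Prime → Mcd G N = {1, p ^ a} →
      ∀ x ∈ ⁅N, (⊤ : Subgroup G)⁆, ∀ y ∈ ⁅N, (⊤ : Subgroup G)⁆, x * y = y * x := by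
  intro G _ _ N hN p a hp hM
  haveI : Fintype G := Fintype.ofFinite G
  refine R678.MC.main (N := N) hp a ?_
  intro θ hθ
  have hin : inertia N θ = R678.MC.inert N θ := by
    ext g
    have h1 : conjFun N θ g = Y63.AWC.cj N g θ := by
      funext n
      unfold conjFun Y63.AWC.cj
      congr 1
    change conjFun N θ g = θ ↔ Y63.AWC.cj N g θ = θ
    rw [h1]
  obtain ⟨m, -, hm⟩ := Y63.AWC.deg_nat hθ
  have h2 : (inertia N θ).index * m ∈ Mcd G N := ⟨θ, hθ, by rw [hm]; push_cast; rfl⟩
  rw [hM] at h2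
  rw [← hin, hm]
  rcases h2 with h2 | h2
  · left
    exact_mod_cast h2
  · right
    have h3 : (inertia N θ).index * m = p ^ a := h2
    exact_mod_cast h3

end Pool.Agent.Results.MP_d0f95c_al.CommutatorAbelian
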